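import Pool.Agent.H820.F3.Stm
import Pool.Agent.H820.T6.Theta1

set_option autoImplicit false

/-! # F3, TPAIR -/

namespace Pool.Agent.H727.F3

open Complex ComplexConjugate Filter Topology
open scoped ContDiff
open Pool.Agent.H820.F3

theorem t_tpair : S_tpair := by
  obtain ⟨a, b, ha, hb, hne, hab⟩ := Pool.Agent.H662.T6.t_theta1
  refine ⟨a, b, ?_⟩
  constructor
  · intro g
    have : ContDiff ℂ ∞ (chit g) := by
      unfold chit
      exact (contDiff_const.sub (contDiff_const.mul contDiff_id)).cexp
    exact this.contDiffOn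
  · intro g z _
    exact Complex.exp_ne_zero _
  · exact ha.contDiffOn
  · exact hb.contDiffOn
  · exact fun z _ => hne z
  · intro g z _
    exact (hab (Multiplicative.toAdd (α := ℤ × ℤ) g).1 (Multiplicative.toAdd (α := ℤ × ℤ) g).2 z).1
  · intro g z _
    exact (hab (Multiplicative.toAdd (α := ℤ × ℤ) g).1 (Multiplicative.toAdd (α := ℤ × ℤ) g).2 z).2

end Pool.Agent.H727.F3
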