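import Pool.Agent.H820.F3.Stm

set_option autoImplicit false

/-! # F3, TPART -/

namespace Pool.Agent.H727.F3

open Complex ComplexConjugate Filter Topology
open scoped ContDiff
open Pool.Agent.H820.F3

noncomputable section

/-- the lattice vector -/
def lv (g : torus.G) : ℂ :=
  (((Multiplicative.toAdd (α := ℤ × ℤ) g).1 : ℂ) + ((Multiplicative.toAdd (α := ℤ × ℤ) g).2 : ℂ) * I)

theorem act_eq (g : torus.G) (z : ℂ) : torus.act g z = z + lv g := rfl

theorem lv_one : lv 1 = 0 := by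
  show (((0 : ℤ) : ℂ) + ((0 : ℤ) : ℂ) * I) = 0
  simp

theorem lv_mul (g h : torus.G) : lv (g * h) = lv g + lv h := by
  have h1 : Multiplicative.toAdd (α := ℤ × ℤ) (g * h) =
      Multiplicative.toAdd (α := ℤ × ℤ) g + Multiplicative.toAdd (α := ℤ × ℤ) h := rfl
  unfold lv
  rw [h1, Prod.fst_add, Prod.snd_add]
  push_cast
  ring

theorem act_mul (g h : torus.G) (z : ℂ) : torus.act (g * h) z = torus.act g (torus.act h z) := by
  rw [act_eq, act_eq, act_eq, lv_mul]
  ring

theorem t_cur : IsCur torus where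
  isOpen := isOpen_univ
  ne := ⟨0, trivial⟩
  maps := fun _ _ _ => trivial
  one := fun z _ => by rw [act_eq, lv_one, add_zero]
  mul := fun g h z _ => act_mul g h z
  holo := fun g => by
    have : torus.act g = fun z => z + lv g := rfl
    rw [this]
    exact (contDiff_id.add contDiff_const).contDiffOn

theorem t_fg : Group.FG torus.G := by
  have h1 : AddGroup.FG (ℤ × ℤ) := Module.Finite.iff_addGroup_fg.1 inferInstance
  have h2 : Group.FG (Multiplicative (ℤ × ℤ)) := AddGroup.fg_iff_mul_fg.1 h1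
  exact h2

/-- the cut-off function -/
def bmp : ContDiffBump (0 : ℂ) := ⟨2, 3, by norm_num, by norm_num⟩

def chi (z : ℂ) : ℝ := bmp z

theorem chi_smooth : ContDiff ℝ ∞ chi := bmp.contDiff

theorem chi_nonneg (z : ℂ) : 0 ≤ chi z := bmp.nonneg

theorem chi_one {z : ℂ} (h : ‖z‖ ≤ 2) : chi z = 1 := by
  apply bmp.one_of_mem_closedBall
  rw [mem_closedBall_zero_iff]
  exact h

theorem chi_zero {z : ℂ} (h : 3 ≤ ‖z‖) : chi z = 0 := by
  apply bmp.zero_of_le_dist
  rw [dist_zero_right]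
  exact h

theorem chi_cs : HasCompactSupport chi := bmp.hasCompactSupport

/-- the group elements as pairs -/
def eG : ℤ × ℤ ≃ torus.G := (Multiplicative.ofAdd : ℤ × ℤ ≃ Multiplicative (ℤ × ℤ))

/-- the finite sets of group elements -/
def Fs (R : ℕ) : Finset torus.G :=
  ((Finset.Icc (-(R : ℤ)) R) ×ˢ (Finset.Icc (-(R : ℤ)) R)).map eG.toEmbedding

theorem mem_Fs {R : ℕ} {g : torus.G} (h : ‖lv g‖ ≤ R) : g ∈ Fs R := by
  have h1 : |((Multiplicative.toAdd (α := ℤ × ℤ) g).1 : ℝ)| ≤ R := by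
    refine le_trans ?_ h
    have := Complex.abs_re_le_norm (lv g)
    simpa [lv] using this
  have h2 : |((Multiplicative.toAdd (α := ℤ × ℤ) g).2 : ℝ)| ≤ R := by
    refine le_trans ?_ h
    have := Complex.abs_im_le_norm (lv g)
    simpa [lv] using this
  have h1' := abs_le.1 h1
  have h2' := abs_le.1 h2
  unfold Fs
  rw [Finset.mem_map]
  refine ⟨Multiplicative.toAdd (α := ℤ × ℤ) g, ?_, rfl⟩
  rw [Finset.mem_product, Finset.mem_Icc, Finset.mem_Icc]
  refine ⟨⟨?_, ?_⟩, ?_, ?_⟩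
  · exact_mod_cast h1'.1
  · exact_mod_cast h1'.2
  · exact_mod_cast h2'.1
  · exact_mod_cast h2'.2

theorem chi_act_zero {R : ℕ} {z : ℂ} (hz : ‖z‖ + 3 ≤ R) {g : torus.G} (hg : g ∉ Fs R) :
    chi (torus.act g z) = 0 := by
  apply chi_zero
  by_contra hcon
  apply hg
  apply mem_Fs
  rw [act_eq] at hcon
  have h1 : ‖lv g‖ ≤ ‖z + lv g‖ + ‖z‖ := by
    have := norm_sub_le (z + lv g) z
    simpa using this
  push Not at hcon
  linarith

/-- the sum -/
def sm (z : ℂ) : ℝ := ∑' g : torus.G, chi (torus.act g z)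

theorem sm_eq {R : ℕ} {z : ℂ} (hz : ‖z‖ + 3 ≤ R) : sm z = ∑ g ∈ Fs R, chi (torus.act g z) :=
  tsum_eq_sum fun g hg => chi_act_zero hz hg

theorem act_smooth (g : torus.G) : ContDiff ℝ ∞ (torus.act g) := by
  have : torus.act g = fun z => z + lv g := rfl
  rw [this]
  exact contDiff_id.add contDiff_const

theorem ev_norm (z : ℂ) : ∃ R : ℕ, ∀ w ∈ Metric.ball z 1, ‖w‖ + 3 ≤ R := by
  obtain ⟨R, hR⟩ := exists_nat_ge (‖z‖ + 1 + 3)
  refine ⟨R, fun w hw => ?_⟩
  have h1 : ‖w - z‖ < 1 := by rwa [Metric.mem_ball, dist_eq_norm] at hw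
  have h2 : ‖w‖ ≤ ‖w - z‖ + ‖z‖ := by
    have := norm_add_le (w - z) z
    simpa using this
  linarith

theorem sm_smooth : ContDiff ℝ ∞ sm := by
  rw [contDiff_iff_contDiffAt]
  intro z
  obtain ⟨R, hR⟩ := ev_norm z
  have h1 : ContDiff ℝ ∞ (fun w => ∑ g ∈ Fs R, chi (torus.act g w)) :=
    ContDiff.sum fun g _ => chi_smooth.comp (act_smooth g)
  refine h1.contDiffAt.congr_of_eventuallyEq ?_
  filter_upwards [Metric.ball_mem_nhds z one_pos] with w hw
  exact sm_eq (hR w hw)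

theorem sm_pos (z : ℂ) : 0 < sm z := by
  obtain ⟨R, hR⟩ := ev_norm z
  have hz := hR z (Metric.mem_ball_self one_pos)
  rw [sm_eq hz]
  set g : torus.G := Multiplicative.ofAdd ((-⌊z.re⌋, -⌊z.im⌋) : ℤ × ℤ) with hg
  have h1 : torus.act g z = ((z.re - ⌊z.re⌋ : ℝ) : ℂ) + ((z.im - ⌊z.im⌋ : ℝ) : ℂ) * I := by
    rw [act_eq]
    have : lv g = (((-⌊z.re⌋ : ℤ) : ℂ) + ((-⌊z.im⌋ : ℤ) : ℂ) * I) := rfl
    rw [this]
    apply Complex.ext
    · simp only [Complex.add_re, Complex.mul_re, Complex.intCast_re, Complex.intCast_im,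
        Complex.ofReal_re, Complex.ofReal_im, Complex.I_re, Complex.I_im]
      push_cast
      ring
    · simp only [Complex.add_im, Complex.mul_im, Complex.intCast_re, Complex.intCast_im,
        Complex.ofReal_re, Complex.ofReal_im, Complex.I_re, Complex.I_im]
      push_cast
      ring
  have f1 := Int.floor_le z.re
  have f2 := Int.floor_le z.im
  have f3 := Int.lt_floor_add_one z.re
  have f4 := Int.lt_floor_add_one z.im
  have h2 : ‖torus.act g z‖ ≤ 2 := by
    rw [h1]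
    refine (norm_add_le _ _).trans ?_
    rw [norm_mul, Complex.norm_I, mul_one, Complex.norm_real, Complex.norm_real, Real.norm_eq_abs,
      Real.norm_eq_abs, abs_of_nonneg (sub_nonneg.2 f1), abs_of_nonneg (sub_nonneg.2 f2)]
    linarith
  have h3 : chi (torus.act g z) = 1 := chi_one h2
  apply Finset.sum_pos' (fun g _ => chi_nonneg _)
  refine ⟨g, ?_, by rw [h3]; exact one_pos⟩
  by_contra hcon
  rw [chi_act_zero hz hcon] at h3
  exact zero_ne_one h3

theorem sm_act (h : torus.G) (z : ℂ) : sm (torus.act h z) = sm z := by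
  unfold sm
  rw [← (Equiv.mulRight h).tsum_eq (fun g => chi (torus.act g z))]
  apply tsum_congr
  intro g
  rw [Equiv.coe_mulRight, act_mul]

/-- the function of the partition -/
def rh (z : ℂ) : ℝ := chi z * (sm z)⁻¹

theorem rh_smooth : ContDiff ℝ ∞ rh :=
  chi_smooth.mul (sm_smooth.inv fun z => (sm_pos z).ne')

theorem t_tpart : S_tpart := by
  refine ⟨t_cur, t_fg, rh, rh_smooth, chi_cs.mul_right, ?_⟩
  refine ⟨fun g => (rh_smooth.comp (act_smooth g)).contDiffOn, fun z _ => ?_, fun z _ => ?_,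
    fun g h z _ => ?_⟩
  · obtain ⟨R, hR⟩ := ev_norm z
    refine ⟨Metric.ball z 1, Metric.ball_mem_nhds z one_pos, Fs R, fun w hw g hg => ?_⟩
    show chi (torus.act g w) * (sm (torus.act g w))⁻¹ = 0
    rw [chi_act_zero (hR w hw) hg, zero_mul]
  · show ∑' g : torus.G, chi (torus.act g z) * (sm (torus.act g z))⁻¹ = 1
    have h1 : ∀ g : torus.G, chi (torus.act g z) * (sm (torus.act g z))⁻¹ =
        chi (torus.act g z) * (sm z)⁻¹ := fun g => by rw [sm_act]
    rw [tsum_congr h1, tsum_mul_right]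
    exact mul_inv_cancel₀ (sm_pos z).ne'
  · show rh (torus.act g (torus.act h z)) = rh (torus.act (g * h) z)
    rw [act_mul]

end

end Pool.Agent.H727.F3
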